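import Pool.Agent.W586.GZ.Stm

/-! The `c_0` part absorbs finitely many coordinates. -/

set_option autoImplicit false
open Filter Topology

namespace Pool.Agent.W800.GZ.ABS

open Pool.Agent.W586.GZ

open Classical in
/-- the relabelling -/
noncomputable def sig (N : ℕ) (p : ℕ → ℕ) (i : ℕ) : ℕ := if Even i ∧ N ≤ i then i else p (i + N)

lemma sig_even {N : ℕ} {p : ℕ → ℕ} {i : ℕ} (h : Even i ∧ N ≤ i) : sig N p i = i := by
  unfold sig; rw [if_pos h]

lemma sig_odd {N : ℕ} {p : ℕ → ℕ} {i : ℕ} (h : ¬ (Even i ∧ N ≤ i)) : sig N p i = p (i + N) := by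
  unfold sig; rw [if_neg h]

lemma sig_inj {N : ℕ} {p : ℕ → ℕ} (hp : StrictMono p) (ho : ∀ a, Odd (p a)) :
    Function.Injective (sig N p) := by
  intro i j hij
  by_cases hi : Even i ∧ N ≤ i
  · by_cases hj : Even j ∧ N ≤ j
    · rwa [sig_even hi, sig_even hj] at hij
    · rw [sig_even hi, sig_odd hj] at hij
      have := ho (j + N)
      rw [← hij] at this
      exact absurd hi.1 (Nat.not_even_iff_odd.2 this)
  · by_cases hj : Even j ∧ N ≤ j
    · rw [sig_odd hi, sig_even hj] at hij
      have := ho (i + N)
      rw [hij] at this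
      exact absurd hj.1 (Nat.not_even_iff_odd.2 this)
    · rw [sig_odd hi, sig_odd hj] at hij
      have := hp.injective hij
      omega

lemma sig_mem {N : ℕ} {p : ℕ → ℕ} (hp : StrictMono p) (i : ℕ) :
    N ≤ sig N p i ∧ (Even (sig N p i) ∨ ∃ a, sig N p i = p a) := by
  by_cases hi : Even i ∧ N ≤ i
  · rw [sig_even hi]; exact ⟨hi.2, Or.inl hi.1⟩
  · rw [sig_odd hi]
    refine ⟨?_, Or.inr ⟨_, rfl⟩⟩
    have := hp.le_apply (x := i + N)
    omega

section
variable {S : Set (ℕ →₀ ℚ)} {X : Type} [NormedAddCommGroup X] [NormedSpace ℝ X]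
  {e : ℕ → X} {e' : ℕ → (X →L[ℝ] ℝ)}

lemma coord_sum (hM : Model S X e e') (s : Finset ℕ) (a : ℕ → ℝ) (n : ℕ) :
    e' n (∑ i ∈ s, a i • e i) = if n ∈ s then a n else 0 := by
  rw [map_sum]
  simp only [map_smul, hM.bio, smul_eq_mul, mul_ite, mul_one, mul_zero]
  rw [Finset.sum_ite_eq s n]

/-- an operator is determined by its values on the basis -/
lemma ext_basis (hM : Model S X e e') (T : X →L[ℝ] X) (h : ∀ n, T (e n) = e n) (x : X) :
    T x = x := by
  have h1 := hM.exp x
  have h2 : Tendsto (fun N : ℕ => T (∑ n ∈ Finset.range N, e' n x • e n)) atTop (𝓝 (T x)) :=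
    (T.continuous.tendsto x).comp h1
  have h3 : (fun N : ℕ => T (∑ n ∈ Finset.range N, e' n x • e n)) =
      fun N : ℕ => ∑ n ∈ Finset.range N, e' n x • e n := by
    funext N
    rw [map_sum]
    refine Finset.sum_congr rfl fun n _ => ?_
    rw [map_smul, h n]
  rw [h3] at h2
  exact tendsto_nhds_unique h2 h1

lemma ext_zero (hM : Model S X e e') (φ : X →L[ℝ] ℝ) (h : ∀ n, φ (e n) = 0) (x : X) :
    φ x = 0 := by
  have h1 := hM.exp x
  have h2 : Tendsto (fun N : ℕ => φ (∑ n ∈ Finset.range N, e' n x • e n)) atTop (𝓝 (φ x)) :=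
    (φ.continuous.tendsto x).comp h1
  have h3 : (fun N : ℕ => φ (∑ n ∈ Finset.range N, e' n x • e n)) = fun _ : ℕ => (0 : ℝ) := by
    funext N
    rw [map_sum]
    refine Finset.sum_eq_zero fun n _ => ?_
    rw [map_smul, h n, smul_zero]
  rw [h3] at h2
  exact tendsto_nhds_unique h2 tendsto_const_nhds

end

theorem main : S_EXT → S_ABS := by
  classical
  intro hext P X _ _ _ e e' hM N p hp ho
  set σ := sig N p with hσ
  have hinj : Function.Injective σ := sig_inj hp ho
  -- the operator A
  obtain ⟨A, hA, -⟩ := hext (WX P) X e e' (WX_idl P) hM (fun i => e (σ i)) 1 zero_le_one (by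
    intro s a
    rw [one_mul]
    set c := ‖∑ i ∈ s, a i • e i‖ with hc
    have h1 := (hM.nrm (∑ i ∈ s, a i • e i) c (norm_nonneg _)).1 le_rfl
    have hb : (fun n => e' n (∑ i ∈ s, a i • e i)) = fun n => if n ∈ s then a n else 0 := by
      funext n; exact coord_sum hM s a n
    rw [hb] at h1
    have hcoord := fun n => h1.coord (WX_idl P) n
    refine (hM.nrm _ c (norm_nonneg _)).2 ?_
    have hb' : ∀ n, e' n (∑ i ∈ s, a i • e (σ i)) = ∑ i ∈ s, if n = σ i then a i else 0 := by
      intro n
      rw [map_sum]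
      refine Finset.sum_congr rfl fun i _ => ?_
      rw [map_smul, hM.bio, smul_eq_mul]
      split_ifs <;> simp
    have hval : ∀ i, e' (σ i) (∑ j ∈ s, a j • e (σ j)) = if i ∈ s then a i else 0 := by
      intro i
      rw [hb']
      have : ∀ j ∈ s, (if σ i = σ j then a j else 0) = if i = j then a j else 0 := by
        intro j _
        by_cases hij : i = j
        · simp [hij]
        · rw [if_neg hij, if_neg (fun h => hij (hinj h))]
      rw [Finset.sum_congr rfl this, Finset.sum_ite_eq s i]
    have hval0 : ∀ n, (∀ i, σ i ≠ n) → e' n (∑ j ∈ s, a j • e (σ j)) = 0 := by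
      intro n hn
      rw [hb']
      exact Finset.sum_eq_zero fun j _ => if_neg (fun h => hn j h.symm)
    rw [NB_WX] at h1 ⊢
    refine ⟨h1.1.le (WW_idl P) fun n => ?_, fun n hn => ?_⟩
    · unfold cut
      by_cases hn : Even n
      · rw [Set.indicator_of_mem (show n ∈ {n | Even n} from hn),
          Set.indicator_of_mem (show n ∈ {n | Even n} from hn)]
        by_cases hN : N ≤ n
        · have e1 : σ n = n := sig_even ⟨hn, hN⟩
          have := hval n
          rw [e1] at this
          rw [this]
        · rw [hval0 n]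
          · rw [abs_zero]; exact abs_nonneg _
          · intro i hi
            exact hN (hi ▸ (sig_mem hp i).1)
      · rw [Set.indicator_of_notMem (show n ∉ {n | Even n} from hn), abs_zero]
        exact abs_nonneg _
    · by_cases h : ∃ i, σ i = n
      · obtain ⟨i, rfl⟩ := h
        rw [hval i]
        exact hcoord i
      · push Not at h
        rw [hval0 n h, abs_zero]
        exact norm_nonneg _)
  -- the operator B
  set v : ℕ → X := fun n => if h : ∃ i, σ i = n then e h.choose else 0 with hv
  have hvσ : ∀ i, v (σ i) = e i := by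
    intro i
    have h : ∃ j, σ j = σ i := ⟨i, rfl⟩
    simp only [hv]
    rw [dif_pos h]
    congr 1
    exact hinj h.choose_spec
  have hv0 : ∀ n, (∀ i, σ i ≠ n) → v n = 0 := by
    intro n hn
    simp only [hv]
    rw [dif_neg]
    rintro ⟨i, hi⟩
    exact hn i hi
  obtain ⟨B, hB, -⟩ := hext (WX P) X e e' (WX_idl P) hM v (N + 1) (by positivity) (by
    intro s a
    set c := ‖∑ i ∈ s, a i • e i‖ with hc
    have hc0 : 0 ≤ c := norm_nonneg _
    have h1 := (hM.nrm (∑ i ∈ s, a i • e i) c (norm_nonneg _)).1 le_rfl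
    have hb : (fun n => e' n (∑ i ∈ s, a i • e i)) = fun n => if n ∈ s then a n else 0 := by
      funext n; exact coord_sum hM s a n
    rw [hb] at h1
    set b : ℕ → ℝ := fun n => if n ∈ s then a n else 0 with hbd
    have hcoord : ∀ n, |b n| ≤ c := fun n => h1.coord (WX_idl P) n
    refine (hM.nrm _ _ (by positivity)).2 ?_
    have hval : (fun i => e' i (∑ n ∈ s, a n • v n)) = fun i => b (σ i) := by
      funext i
      rw [map_sum]
      have h2 : ∀ n ∈ s, e' i (a n • v n) = if n = σ i then a n else 0 := by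
        intro n _
        rw [map_smul, smul_eq_mul]
        by_cases h : ∃ j, σ j = n
        · obtain ⟨j, rfl⟩ := h
          rw [hvσ, hM.bio]
          by_cases hij : i = j
          · simp [hij]
          · rw [if_neg hij, if_neg (fun h => hij (hinj h).symm), mul_zero]
        · push Not at h
          rw [hv0 n h, map_zero, mul_zero, if_neg (fun h' => h i h'.symm)]
      rw [Finset.sum_congr rfl h2, Finset.sum_ite_eq' s (σ i)]
    rw [hval]
    rw [NB_WX] at h1 ⊢
    refine ⟨?_, fun n _ => ?_⟩
    · have hx1 : NB (WW P) (fun i => if Even i ∧ N ≤ i then b i else 0) c := by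
        refine h1.1.le (WW_idl P) fun n => ?_
        unfold cut
        by_cases hn : Even n ∧ N ≤ n
        · rw [if_pos hn, Set.indicator_of_mem (show n ∈ {n | Even n} from hn.1)]
        · rw [if_neg hn, abs_zero]; exact abs_nonneg _
      have hx2 : NB (WW P) (fun i => if i < N then b (σ i) else 0) (N * c) := by
        refine (NB.of_l1 (WW_idl P) (Finset.range N) (fun i hi => ?_)).mono ?_
        · rw [Finset.mem_range]
          by_contra h
          exact hi (if_neg h)
        · have : ∑ i ∈ Finset.range N, |if i < N then b (σ i) else 0| ≤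
              ∑ _i ∈ Finset.range N, c := by
            refine Finset.sum_le_sum fun i hi => ?_
            rw [if_pos (Finset.mem_range.1 hi)]
            exact hcoord _
          rwa [Finset.sum_const, Finset.card_range, nsmul_eq_mul] at this
      refine ((hx1.add (WW_idl P) hx2).mono (le_of_eq (by ring))).le (WW_idl P) fun n => ?_
      unfold cut
      by_cases hn : Even n
      · rw [Set.indicator_of_mem (show n ∈ {n | Even n} from hn)]
        by_cases hN : N ≤ n
        · rw [if_pos ⟨hn, hN⟩, if_neg (not_lt.2 hN), add_zero]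
          have e1 : σ n = n := sig_even ⟨hn, hN⟩
          rw [e1]
        · rw [if_neg (fun h => hN h.2), if_pos (not_le.1 hN), zero_add]
      · rw [Set.indicator_of_notMem (show n ∉ {n | Even n} from hn), abs_zero]
        exact abs_nonneg _
    · refine (hcoord (σ n)).trans ?_
      have : (0 : ℝ) ≤ N := Nat.cast_nonneg _
      nlinarith)
  refine ⟨A, B, ?_, ?_⟩
  · intro x n hn
    have := ext_zero hM ((e' n).comp A) (fun k => by
      rw [ContinuousLinearMap.comp_apply, hA, hM.bio, if_neg]
      intro h
      exact hn (h ▸ sig_mem hp k)) x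
    simpa using this
  · intro x
    have := ext_basis hM (B.comp A) (fun k => by
      rw [ContinuousLinearMap.comp_apply, hA, hB, hvσ]) x
    simpa using this

end Pool.Agent.W800.GZ.ABS
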