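import Pool.Agent.W586.GZ.Stm

/-! The normalised sum of a rapidly increasing sequence is an exact vector. -/

set_option autoImplicit false

namespace Pool.Agent.W800.GZ.EXV

open Pool.Agent.W586.GZ

lemma coord_le {K : ℕ} {v : ℕ → ℕ → ℝ} {C : ℝ} (hC : 0 ≤ C)
    (hs : ∀ i l, i < l → l < K → VLt (v i) (v l)) {I : Finset ℕ} (hI : I ⊆ Finset.range K) (n : ℕ)
    (hv : ∀ i ∈ I, |v i n| ≤ C) : |∑ i ∈ I, v i n| ≤ C := by
  by_cases h : ∃ i ∈ I, v i n ≠ 0
  · obtain ⟨i, hi, hne⟩ := h
    rw [Finset.sum_eq_single_of_mem i hi]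
    · exact hv i hi
    · intro l hl hli
      by_contra hc
      rcases lt_or_gt_of_ne hli with h1 | h1
      · exact lt_irrefl _ (hs l i h1 (Finset.mem_range.mp (hI hi)) n n hc hne)
      · exact lt_irrefl _ (hs i l h1 (Finset.mem_range.mp (hI hl)) n n hne hc)
  · push Not at h
    rw [Finset.sum_eq_zero h, abs_zero]
    exact hC

theorem main : S_REC1 → S_REC2 → S_RISH → S_EXV := by
  intro _ hrec2 hris P q J x hq hR hJ0
  set mN : ℕ := P.m (2 * q) with hmN
  set nN : ℕ := P.n (2 * q) with hnN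
  set m : ℝ := (mN : ℝ) with hm
  set n : ℝ := (nN : ℝ) with hn
  set S : ℕ → ℝ := fun k => ∑ l ∈ Finset.range nN, x l k with hS
  obtain ⟨p, hp⟩ : ∃ p, 2 * q = p + 1 := ⟨2 * q - 1, by omega⟩
  -- numbers
  have hm8 : 8 ≤ mN := by
    rw [hmN, hp, P.mS]
    calc 8 = 2 ^ 3 := by norm_num
      _ ≤ P.m p ^ 3 := Nat.pow_le_pow_left (P.mpos p) 3
  have hnS : mN ^ 3 * (P.n p + 1) ^ (3 * mN + 1) ≤ nN := by
    have := P.nS p
    rwa [← hp] at this
  have h6 : 6 * mN * (P.n p + 1) ^ (mN + 1) ≤ nN := by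
    refine le_trans (Nat.mul_le_mul ?_ (Nat.pow_le_pow_right (by omega) (by omega))) hnS
    calc 6 * mN ≤ (mN * mN) * mN := Nat.mul_le_mul_right _ (by nlinarith)
      _ = mN ^ 3 := by ring
  have hmn : mN ≤ nN := by
    refine le_trans ?_ h6
    have h1 : 1 ≤ (P.n p + 1) ^ (mN + 1) := Nat.one_le_pow _ _ (by omega)
    nlinarith
  have hmR : (8 : ℝ) ≤ m := by rw [hm]; exact_mod_cast hm8
  have hmnR : m ≤ n := by rw [hm, hn]; exact_mod_cast hmn
  have hnpos : 0 < n := by linarith
  have hmpos : 0 < m := by linarith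
  have hmn1 : m / n ≤ 1 := by rw [div_le_one hnpos]; exact hmnR
  have hmn0 : 0 ≤ m / n := by positivity
  -- evaluation of the vector
  have hev : ∀ g : ℕ →₀ ℚ, ev g (fun k => m / n * S k) = m / n * ev g S := by
    intro g
    rw [ev_smul_right, abs_of_nonneg hmn0]
  have hbase : ∀ t g, W P (some t) g → ev g (fun k => m / n * S k) ≤ 4 * (m / P.m t) + 8 * (m / n) := by
    intro t g hg
    rw [hev]
    have h1 := hris P nN J x hR (Finset.range nN) (Finset.Subset.refl _) t g hg
    rw [Finset.card_range, ← hn] at h1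
    have h2 := mul_le_mul_of_nonneg_left h1 hmn0
    refine h2.trans (le_of_eq ?_)
    have hmt := (P.mpos' t).ne'
    field_simp
  have hlow : ∀ t, t < 2 * q → ∀ g, W P (some t) g →
      ev g (fun k => m / n * S k) ≤ 12 / P.m t := by
    intro t ht g hg
    rw [hev]
    have h1 := hrec2 P nN (2 * q) x (4 / m) 4 8 (by positivity) (by norm_num) (by norm_num)
      hR.succ hR.r2 (by
        intro I hI t' ht' g' hg'
        refine (hris P nN J x hR I hI t' g' hg').trans ?_
        have h3 : m ≤ P.m t' := by rw [hm]; exact_mod_cast P.mlt.monotone ht'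
        have h4 : 4 / (P.m t' : ℝ) ≤ 4 / m := div_le_div_of_nonneg_left (by norm_num) hmpos h3
        have := mul_le_mul_of_nonneg_right h4 (Nat.cast_nonneg (α := ℝ) I.card)
        linarith) (by
        intro i hi t' ht' g' hg'
        refine hR.r1 i hi t' (lt_of_lt_of_le (ht'.trans hJ0) ?_) g' hg'
        rcases Nat.eq_zero_or_pos i with h | h
        · rw [h]
        · exact (hR.mono 0 i h hi).le) mN (Finset.range nN) (Finset.Subset.refl _) t ht g hg
    rw [Finset.card_range] at h1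
    have hp' : 2 * q - 1 = p := by omega
    rw [hp'] at h1
    have h2 := mul_le_mul_of_nonneg_left h1 hmn0
    refine h2.trans ?_
    have hmt := P.mpos' t
    rw [mul_div_assoc', div_le_div_iff_of_pos_right hmt]
    have hpow : (mN : ℝ) ≤ 2 ^ mN := by exact_mod_cast Nat.lt_two_pow_self.le
    have e1 : m / n * (4 / m * (nN : ℝ)) = 4 := by
      rw [← hn]; field_simp
    have e2 : m / n * (4 * (nN : ℝ) / 2 ^ mN) ≤ 4 := by
      rw [← hn]
      have : m / n * (4 * n / 2 ^ mN) = 4 * (m / 2 ^ mN) := by field_simp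
      rw [this]
      have h3 : m / 2 ^ mN ≤ 1 := by
        rw [div_le_one (by positivity)]; exact hpow
      linarith
    have e3 : m / n * (3 * 8 * ((P.n p : ℝ) + 1) ^ (mN + 1)) ≤ 4 := by
      have h3 : 6 * m * ((P.n p : ℝ) + 1) ^ (mN + 1) ≤ n := by rw [hm, hn]; exact_mod_cast h6
      rw [div_mul_eq_mul_div, div_le_iff₀ hnpos]
      nlinarith
    calc m / n * (4 / m * (nN : ℝ) + 4 * (nN : ℝ) / 2 ^ mN +
          3 * 8 * ((P.n p : ℝ) + 1) ^ (mN + 1))
        = m / n * (4 / m * (nN : ℝ)) + m / n * (4 * (nN : ℝ) / 2 ^ mN) +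
          m / n * (3 * 8 * ((P.n p : ℝ) + 1) ^ (mN + 1)) := by ring
      _ ≤ 12 := by linarith
  refine ⟨hlow, ?_, ?_⟩
  · intro g hg
    obtain ⟨w, hw⟩ := hg
    rcases w with _ | t
    · rcases hw.inv_none with rfl | ⟨k, rfl⟩
      · rw [ev_zero]; norm_num
      · rw [ev_single, abs_mul, abs_of_nonneg hmn0]
        have h1 : |S k| ≤ 4 := coord_le (by norm_num) hR.succ (Finset.Subset.refl _) k
          (fun i hi => (hR.r2 i (Finset.mem_range.mp hi)).coord (WW_idl P) k)
        calc m / n * |S k| ≤ 1 * 4 := mul_le_mul hmn1 h1 (abs_nonneg _) (by norm_num)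
          _ ≤ 12 := by norm_num
    · rcases lt_or_ge t (2 * q) with ht | ht
      · refine (hlow t ht g hw).trans ?_
        have h2 : (2 : ℝ) ≤ P.m t := by exact_mod_cast P.mpos t
        rw [div_le_iff₀ (P.mpos' t)]
        nlinarith
      · refine (hbase t g hw).trans ?_
        have h3 : m ≤ P.m t := by rw [hm]; exact_mod_cast P.mlt.monotone ht
        have h4 : m / P.m t ≤ 1 := by rw [div_le_one (P.mpos' t)]; exact h3
        linarith
  · intro t ht g hg
    refine (hbase t g hg).trans ?_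
    have h5 : 0 ≤ m / P.m t := div_nonneg hmpos.le (P.mpos' t).le
    show 4 * (m / P.m t) + 8 * (m / n) ≤ 12 * (m / P.m t + m / n)
    linarith

end Pool.Agent.W800.GZ.EXV
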