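import Pool.Agent.W586.GZ.Stm

/-! Recursion estimate, first form. -/

set_option autoImplicit false

namespace Pool.Agent.W800.GZ.REC1

open Pool.Agent.W586.GZ

lemma coord_le {K : ℕ} {v : ℕ → ℕ → ℝ} {C : ℝ} (hC : 0 ≤ C)
    (hs : ∀ i l, i < l → l < K → VLt (v i) (v l)) {I : Finset ℕ} (hI : I ⊆ Finset.range K) (n : ℕ)
    (hv : ∀ i ∈ I, |v i n| ≤ C) : |∑ i ∈ I, v i n| ≤ C := by
  by_cases h : ∃ i ∈ I, v i n ≠ 0
  · obtain ⟨i, hi, hne⟩ := h
    rw [Finset.sum_eq_single_of_mem i hi]
    · exact hv i hi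
    · intro l hl hli
      by_contra hc
      rcases lt_or_gt_of_ne hli with h1 | h1
      · exact lt_irrefl _ (hs l i h1 (Finset.mem_range.mp (hI hi)) n n hc hne)
      · exact lt_irrefl _ (hs i l h1 (Finset.mem_range.mp (hI hl)) n n hne hc)
  · push Not at h
    rw [Finset.sum_eq_zero h, abs_zero]
    exact hC

/-- the contribution of a functional of low weight -/
lemma low {P : Par} {t k : ℕ} {v : ℕ → ℕ → ℝ} {g : ℕ → (ℕ →₀ ℚ)} {w : ℕ → Option ℕ} {A : Set ℕ}
    (hg : ∀ i, i < k → W P (w i) (g i)) {I' : Finset ℕ} (ρ : ℕ → ℕ)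
    (hρ : ∀ i ∈ I', ∀ r, r < k → r ≠ ρ i → ∀ n, g r n ≠ 0 → v i n = 0)
    (a b : ℝ) (hI : ∀ r, r < k → ev (g r) (fun n => ∑ i ∈ I'.filter (fun i => ρ i = r), v i n) ≤
      a * (I'.filter (fun i => ρ i = r)).card + b) (ha : 0 ≤ a) :
    ev (rs (((P.m t : ℚ)⁻¹) • ∑ i ∈ Finset.range k, g i) A) (fun n => ∑ i ∈ I', v i n) ≤
      (a * I'.card + k * b) / P.m t := by
  refine (ev_inv_le hg _).trans ?_
  refine div_le_div_of_nonneg_right ?_ (P.mpos' t).le
  have h1 : ∀ r ∈ Finset.range k, ev (g r) (fun n => ∑ i ∈ I', v i n) ≤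
      a * (I'.filter (fun i => ρ i = r)).card + b := by
    intro r hr
    have hr' := Finset.mem_range.mp hr
    refine le_trans (le_of_eq ?_) (hI r hr')
    refine ev_congr _ _ _ fun n hn => ?_
    congr 1
    symm
    refine Finset.sum_subset (Finset.filter_subset _ _) ?_
    intro i hi hni
    refine hρ i hi r hr' (fun e => hni ?_) n hn
    rw [Finset.mem_filter]
    exact ⟨hi, e.symm⟩
  refine (Finset.sum_le_sum h1).trans ?_
  rw [Finset.sum_add_distrib, ← Finset.mul_sum, Finset.sum_const, Finset.card_range, nsmul_eq_mul]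
  have h2 : ∑ r ∈ Finset.range k, ((I'.filter (fun i => ρ i = r)).card : ℝ) ≤ I'.card := by
    rw [← Nat.cast_sum, Finset.sum_card_fiberwise_eq_card_filter]
    exact_mod_cast Finset.card_filter_le _ _
  have := mul_le_mul_of_nonneg_left h2 ha
  linarith

theorem main : S_COMB2 → S_REC1 := by
  intro hcomb P K J v α C D hα hC hCD hs hv hJ s
  set Q : ℝ := (P.n (J - 1) : ℝ) + 1 with hQ
  have hQ1 : 1 ≤ Q := by
    have : (0 : ℝ) ≤ (P.n (J - 1) : ℝ) := Nat.cast_nonneg _
    linarith
  have hD : 0 ≤ D := hC.trans hCD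
  induction s with
  | zero =>
    intro I hI
    have h1 := NB.sum (WW_idl P) I (x := v) (c := fun _ => C)
      (fun i hi => hv i (Finset.mem_range.mp (hI hi)))
    refine h1.mono ?_
    rw [Finset.sum_const, nsmul_eq_mul, pow_zero, pow_zero, div_one, mul_one]
    have : 0 ≤ α * (I.card : ℝ) := by positivity
    linarith
  | succ s ih =>
    intro I hI g hg
    have hQs : 1 ≤ Q ^ s := one_le_pow₀ hQ1
    have hQs1 : 1 ≤ Q ^ (s + 1) := one_le_pow₀ hQ1
    have hp1 : 0 ≤ α * (I.card : ℝ) := by positivity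
    have hp2 : 0 ≤ C * (I.card : ℝ) / 2 ^ (s + 1) := by positivity
    have hp3 : D ≤ 2 * D * Q ^ (s + 1) := by nlinarith
    obtain ⟨w, hw⟩ := hg
    rcases w with _ | t
    · rcases hw.inv_none with rfl | ⟨n, rfl⟩
      · rw [ev_zero]; linarith
      · rw [ev_single]
        have := coord_le hC hs hI n
          (fun i hi => (hv i (Finset.mem_range.mp (hI hi))).coord (WW_idl P) n)
        linarith
    · rcases le_or_gt J t with ht | ht
      · have := hJ I hI t ht g hw
        linarith
      · obtain ⟨k, g', w', A, hk, hg', hlt, hgeq, -⟩ := hw.inv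
        obtain ⟨B, hBI, hBk, ρ, hρ⟩ := hcomb k K g' v I (fun r n hr => (hg' r hr).nn n) hlt hs hI
        have hkL : (k : ℝ) ≤ Q - 1 := by
          have h1 : k ≤ P.n (J - 1) := hk.trans (P.nlt.monotone (by omega))
          have h2 : (k : ℝ) ≤ (P.n (J - 1) : ℝ) := by exact_mod_cast h1
          linarith
        have hm2 : (2 : ℝ) ≤ P.m t := by exact_mod_cast P.mpos t
        -- split
        have hsplit : (fun n => ∑ i ∈ I, v i n) =
            fun n => (∑ i ∈ B, v i n) + ∑ i ∈ I \ B, v i n := by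
          funext n
          rw [add_comm, Finset.sum_sdiff hBI]
        rw [hsplit]
        refine (ev_add_right g hw.nn _ _).trans ?_
        have hB : ev g (fun n => ∑ i ∈ B, v i n) ≤ C * (Q - 1) := by
          refine (ev_sum_right B g hw.nn v).trans ?_
          have h1 : ∑ i ∈ B, ev g (v i) ≤ ∑ _i ∈ B, C :=
            Finset.sum_le_sum fun i hi =>
              hv i (Finset.mem_range.mp (hI (hBI hi))) g ⟨_, hw⟩
          rw [Finset.sum_const, nsmul_eq_mul] at h1
          have h2 : (B.card : ℝ) ≤ k := by exact_mod_cast hBk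
          nlinarith
        have hI' : ev g (fun n => ∑ i ∈ I \ B, v i n) ≤
            ((α + C / 2 ^ s) * ((I \ B).card : ℝ) + k * (2 * D * Q ^ s)) / P.m t := by
          rw [hgeq]
          refine low hg' ρ (fun i hi r hr hne n hn => hρ i (Finset.mem_sdiff.mp hi).1
            (Finset.mem_sdiff.mp hi).2 r hr hne n hn) _ _ (fun r hr => ?_) (by positivity)
          have := ih ((I \ B).filter (fun i => ρ i = r))
            ((Finset.filter_subset _ _).trans (Finset.sdiff_subset.trans hI)) (g' r)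
            ⟨_, hg' r hr⟩
          refine this.trans (le_of_eq ?_)
          ring
        have hI2 : ((α + C / 2 ^ s) * ((I \ B).card : ℝ) + k * (2 * D * Q ^ s)) / P.m t ≤
            ((α + C / 2 ^ s) * (I.card : ℝ) + (Q - 1) * (2 * D * Q ^ s)) / 2 := by
          have h1 : ((I \ B).card : ℝ) ≤ I.card := by
            exact_mod_cast Finset.card_le_card Finset.sdiff_subset
          have h2 : 0 ≤ α + C / 2 ^ s := by positivity
          have h3 : 0 ≤ 2 * D * Q ^ s := by positivity
          refine div_le_div₀ ?_ ?_ (by norm_num) hm2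
          · exact add_nonneg (mul_nonneg h2 (Nat.cast_nonneg _)) (mul_nonneg (by linarith) h3)
          · exact add_le_add (mul_le_mul_of_nonneg_left h1 h2) (mul_le_mul_of_nonneg_right hkL h3)
        have e1 : (α + C / 2 ^ s) * (I.card : ℝ) / 2 = α * I.card / 2 + C * I.card / 2 ^ (s + 1) := by
          rw [pow_succ]; field_simp
        have h4 : C * (Q - 1) ≤ D * (Q - 1) := mul_le_mul_of_nonneg_right hCD (by linarith)
        have h5 : D * (Q - 1) + (Q - 1) * (2 * D * Q ^ s) / 2 ≤ 2 * D * Q ^ (s + 1) := by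
          have e2 : D * (Q - 1) + (Q - 1) * (2 * D * Q ^ s) / 2 = D * ((Q - 1) * (1 + Q ^ s)) := by
            ring
          have e3 : 2 * D * Q ^ (s + 1) = D * (Q * (2 * Q ^ s)) := by ring
          rw [e2, e3]
          refine mul_le_mul_of_nonneg_left ?_ hD
          exact mul_le_mul (by linarith) (by linarith) (by positivity) (by linarith)
        have e4 : ((α + C / 2 ^ s) * (I.card : ℝ) + (Q - 1) * (2 * D * Q ^ s)) / 2 =
          (α + C / 2 ^ s) * (I.card : ℝ) / 2 + (Q - 1) * (2 * D * Q ^ s) / 2 := by ring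
        linarith

end Pool.Agent.W800.GZ.REC1
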